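import Pool.Agent.N783.PF.Def
import Pool.Agent.N530.PQ.Orb

/-!
# PF/ORB: orbits of the unipotent group on pairs over a number field (written by helper999)

The version over the ring of integers of a number field of `Pool/Agent/N530/PQ/Orb.lean` of
helper530; the freeness uses `comm_zero` of `Pool.Agent.N50.PJ.Orb` (helper50).
-/

set_option autoImplicit false
set_option linter.unusedSectionVars false

open Polynomial Matrix NumberField
open scoped Classical

namespace Pool.Agent.N999.PF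

open Pool.Agent.N783.PF
open Pool.Agent.N783.PQ (chp form Dist eU)
open Pool.Agent.N352.PJ (Mt Typ)
open Pool.Agent.N530.PQ (op_act chp_act symm_act form_act Ix mem_ix)

/-! ### The action -/

section act

variable {g : ℕ} {R R' : Type} [CommRing R] [CommRing R'] {U A B : Mt g R}

theorem dist_act (hU : IsUnit U.det) (h : Dist A B) : Dist (Uᵀ * A * U) (Uᵀ * B * U) := by
  obtain ⟨ξ, h⟩ := h
  refine ⟨U⁻¹ *ᵥ ξ, fun m hm => ?_⟩
  rw [form_act hU]
  exact h m hm

theorem tr_act (hU : U.det = 1) :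
    ((Uᵀ * A * U).adjugate * (Uᵀ * B * U)).trace = (A.adjugate * B).trace := by
  have h1 : Uᵀ.adjugate * Uᵀ = 1 := by
    rw [Matrix.adjugate_mul, Matrix.det_transpose, hU, one_smul]
  have h2 : U * U.adjugate = 1 := by rw [Matrix.mul_adjugate, hU, one_smul]
  rw [Matrix.adjugate_mul_distrib, Matrix.adjugate_mul_distrib]
  calc (U.adjugate * (A.adjugate * Uᵀ.adjugate) * (Uᵀ * B * U)).trace
      = (U.adjugate * (A.adjugate * (Uᵀ.adjugate * Uᵀ) * B * U)).trace := by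
        simp only [Matrix.mul_assoc]
    _ = (A.adjugate * B * (U * U.adjugate)).trace := by
        rw [h1, Matrix.mul_one, Matrix.trace_mul_comm]
        simp only [Matrix.mul_assoc]
    _ = _ := by rw [h2, Matrix.mul_one]

theorem map_act (f : R →+* R') :
    (Uᵀ * A * U).map f = (U.map f)ᵀ * A.map f * U.map f := by
  rw [Matrix.map_mul, Matrix.map_mul, Matrix.transpose_map]

theorem map_unit (f : R →+* R') (hU : U.det = 1) : IsUnit (U.map f).det := by
  have h1 : (U.map f).det = f U.det := (RingHom.map_det f U).symm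
  rw [h1, hU, map_one]
  exact isUnit_one

end act

/-! ### Sizes -/

section size

variable {F : Type} [Field F] [NumberField F]

theorem bd_mul {x y : F} {R R' : ℝ} (hR : 0 ≤ R) (hx : Bd x R) (hy : Bd y R') :
    Bd (x * y) (R * R') := fun σ => by
  rw [map_mul, norm_mul]
  exact mul_le_mul (hx σ) (hy σ) (norm_nonneg _) hR

theorem bd_sum {ι : Type} (s : Finset ι) {x : ι → F} {R : ℝ} (h : ∀ i ∈ s, Bd (x i) R) :
    Bd (∑ i ∈ s, x i) (s.card * R) := fun σ => by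
  rw [map_sum]
  refine (norm_sum_le _ _).trans ((Finset.sum_le_sum fun i hi => h i hi σ).trans ?_)
  rw [Finset.sum_const, nsmul_eq_mul]

theorem bd_mono {x : F} {R R' : ℝ} (h : Bd x R) (hR : R ≤ R') : Bd x R' := fun σ => (h σ).trans hR

theorem bd_zero {R : ℝ} (hR : 0 ≤ R) : Bd (0 : F) R := fun σ => by
  rw [map_zero, norm_zero]
  exact hR

theorem bd_one : Bd (1 : F) 1 := fun σ => by
  rw [map_one, norm_one]

end size

/-! ### Unipotent matrices -/

section uni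

variable {F : Type} [Field F] [NumberField F] {g : ℕ}

/-- upper triangular unipotent integral matrices with bounded entries -/
structure Uni (w : Fin (2 * g + 1) → ℤ) (U : Mt g (𝓞 F)) : Prop where
  low : ∀ i j, j < i → U i j = 0
  dia : ∀ i, U i i = 1
  bd : ∀ i j, i < j → Bd (U i j : F) ((2 : ℝ) ^ (w j - w i))

variable {w : Fin (2 * g + 1) → ℤ} {U U' A B : Mt g (𝓞 F)}

theorem Uni.det (h : Uni w U) : U.det = 1 := by
  rw [Matrix.det_of_isUpperTriangular (fun i j hij => h.low i j hij)]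
  simp [h.dia]

theorem Uni.unit (h : Uni w U) : IsUnit U.det := by rw [h.det]; exact isUnit_one

theorem Uni.bd' (h : Uni w U) (i j : Fin (2 * g + 1)) :
    Bd (algebraMap (𝓞 F) F (U i j)) ((2 : ℝ) ^ (w j - w i)) := by
  rcases lt_trichotomy i j with hij | hij | hij
  · exact h.bd i j hij
  · rw [hij, h.dia, sub_self, zpow_zero, map_one]
    exact bd_one
  · rw [h.low i j hij, map_zero]
    exact bd_zero (by positivity)

/-- the bound for the transformed matrix -/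
theorem Uni.box (h : Uni w U) {c : ℤ} (hA : ∀ i j, Bd (A i j : F) ((2 : ℝ) ^ (c + w i + w j)))
    (i j : Fin (2 * g + 1)) : Bd ((Uᵀ * A * U) i j : F)
      ((2 * g + 1 : ℕ) ^ 2 * (2 : ℝ) ^ (c + w i + w j)) := by
  have e : (Uᵀ * A * U) i j = ∑ l, ∑ k, U k i * A k l * U l j := by
    rw [Matrix.mul_apply]
    refine Finset.sum_congr rfl fun l _ => ?_
    rw [Matrix.mul_apply, Finset.sum_mul]
    refine Finset.sum_congr rfl fun k _ => ?_
    rw [Matrix.transpose_apply]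
  have h1 : ∀ l k : Fin (2 * g + 1), Bd (algebraMap (𝓞 F) F (U k i * A k l * U l j))
      ((2 : ℝ) ^ (c + w i + w j)) := by
    intro l k
    rw [map_mul, map_mul]
    have h2 := h.bd' k i
    have h3 : Bd (algebraMap (𝓞 F) F (A k l)) ((2 : ℝ) ^ (c + w k + w l)) := hA k l
    have h4 := h.bd' l j
    have h5 : (2 : ℝ) ^ (c + w i + w j) =
        (2 : ℝ) ^ (w i - w k) * (2 : ℝ) ^ (c + w k + w l) * (2 : ℝ) ^ (w j - w l) := by
      rw [← zpow_add₀ (by norm_num : (2 : ℝ) ≠ 0), ← zpow_add₀ (by norm_num : (2 : ℝ) ≠ 0)]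
      congr 1
      ring
    rw [h5]
    exact bd_mul (by positivity) (bd_mul (by positivity) h2 h3) h4
  change Bd (algebraMap (𝓞 F) F ((Uᵀ * A * U) i j)) _
  rw [e, map_sum]
  have h2 : ∀ l : Fin (2 * g + 1), Bd (algebraMap (𝓞 F) F (∑ k, U k i * A k l * U l j))
      ((2 * g + 1 : ℕ) * (2 : ℝ) ^ (c + w i + w j)) := by
    intro l
    rw [map_sum]
    have h3 := bd_sum Finset.univ (fun k (_ : k ∈ Finset.univ) => h1 l k)
    rwa [Finset.card_univ, Fintype.card_fin] at h3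
  have h3 := bd_sum Finset.univ (fun l (_ : l ∈ Finset.univ) => h2 l)
  rw [Finset.card_univ, Fintype.card_fin] at h3
  refine bd_mono h3 (le_of_eq ?_)
  ring

/-- the first basis vector -/
theorem Uni.e0 (h : Uni w U) :
    (mF U) *ᵥ (Pi.single 0 1 : Fin (2 * g + 1) → F) = Pi.single 0 1 := by
  rw [Matrix.mulVec_single_one]
  funext i
  by_cases hi : i = 0
  · rw [hi, Pi.single_eq_same]
    change algebraMap (𝓞 F) F (U 0 0) = 1
    rw [h.dia 0, map_one]
  · rw [Pi.single_eq_of_ne hi]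
    change algebraMap (𝓞 F) F (U i 0) = 0
    rw [h.low i 0 (Fin.pos_of_ne_zero hi), map_zero]

theorem free (hirr : Irreducible (chp (mF A) (mF B)))
    (h : Uni w U) (h' : Uni w U') (eA : Uᵀ * A * U = U'ᵀ * A * U')
    (eB : Uᵀ * B * U = U'ᵀ * B * U') : U = U' := by
  obtain ⟨T, hT⟩ : ∃ T : Mt g F, T = (mF A)⁻¹ * mF B := ⟨_, rfl⟩
  obtain ⟨u, hu⟩ : ∃ u : Mt g F, u = mF U := ⟨_, rfl⟩
  obtain ⟨u', hu'⟩ : ∃ u' : Mt g F, u' = mF U' := ⟨_, rfl⟩
  obtain ⟨V, hV⟩ : ∃ V : Mt g F, V = u' * u⁻¹ := ⟨_, rfl⟩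
  have hU : IsUnit u.det := by rw [hu]; exact map_unit _ h.det
  have hU' : IsUnit u'.det := by rw [hu']; exact map_unit _ h'.det
  have eA' : uᵀ * mF A * u = u'ᵀ * mF A * u' := by
    rw [hu, hu', ← map_act, ← map_act, eA]
  have eB' : uᵀ * mF B * u = u'ᵀ * mF B * u' := by
    rw [hu, hu', ← map_act, ← map_act, eB]
  have e1 : u⁻¹ * T * u = u'⁻¹ * T * u' := by
    rw [hT, ← op_act hU, ← op_act hU', eA', eB']
  have hVT : V * T = T * V := by
    have h2 : u' * (u⁻¹ * T * u) * u⁻¹ = u' * (u'⁻¹ * T * u') * u⁻¹ := by rw [e1]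
    have h3 : u' * (u⁻¹ * T * u) * u⁻¹ = V * T := by
      rw [hV]
      calc u' * (u⁻¹ * T * u) * u⁻¹ = u' * u⁻¹ * T * (u * u⁻¹) := by
            simp only [Matrix.mul_assoc]
        _ = _ := by rw [Matrix.mul_nonsing_inv _ hU, Matrix.mul_one]
    have h4 : u' * (u'⁻¹ * T * u') * u⁻¹ = T * V := by
      rw [hV]
      calc u' * (u'⁻¹ * T * u') * u⁻¹ = (u' * u'⁻¹) * T * (u' * u⁻¹) := by
            simp only [Matrix.mul_assoc]
        _ = _ := by rw [Matrix.mul_nonsing_inv _ hU', Matrix.one_mul]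
    rw [← h3, h2, h4]
  have hVe : V *ᵥ (Pi.single 0 1 : Fin (2 * g + 1) → F) = Pi.single 0 1 := by
    rw [hV, ← Matrix.mulVec_mulVec]
    have h2 : u⁻¹ *ᵥ (Pi.single 0 1 : Fin (2 * g + 1) → F) = Pi.single 0 1 := by
      have h3 : u *ᵥ (Pi.single 0 1 : Fin (2 * g + 1) → F) = Pi.single 0 1 := by
        rw [hu]
        exact h.e0
      conv_lhs => rw [← h3]
      rw [Matrix.mulVec_mulVec, Matrix.nonsing_inv_mul _ hU, Matrix.one_mulVec]
    rw [h2, hu', h'.e0]
  have hM0 : V - 1 = 0 := by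
    refine Pool.Agent.N50.PJ.comm_zero T (V - 1) (by rw [hT]; exact hirr) ?_
      (x := (Pi.single 0 1 : Fin (2 * g + 1) → F)) ?_ ?_
    · rw [Matrix.sub_mul, Matrix.mul_sub, hVT, Matrix.one_mul, Matrix.mul_one]
    · intro h0
      have h2 := congrFun h0 0
      rw [Pi.single_eq_same, Pi.zero_apply] at h2
      exact one_ne_zero h2
    · rw [Matrix.sub_mulVec, Matrix.one_mulVec, hVe, sub_self]
  have hV1 : V = 1 := sub_eq_zero.1 hM0
  have huu : u = u' := by
    calc u = V * u := by rw [hV1, Matrix.one_mul]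
      _ = u' * (u⁻¹ * u) := by rw [hV, Matrix.mul_assoc]
      _ = u' := by rw [Matrix.nonsing_inv_mul _ hU, Matrix.mul_one]
  rw [hu, hu'] at huu
  refine Matrix.ext fun i j => ?_
  apply RingOfIntegers.coe_injective
  exact congrFun (congrFun huu i) j

end uni

/-! ### The count -/

section count

variable {F : Type} [Field F] [NumberField F] {g : ℕ}

/-- the parameters -/
abbrev Par (F : Type) [Field F] [NumberField F] (g : ℕ) (w : Fin (2 * g + 1) → ℤ) : Type :=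
  ∀ p : Ix g, {a : 𝓞 F | Bd (a : F) ((2 : ℝ) ^ (w p.1.2 - w p.1.1))}

/-- the matrix -/
noncomputable def mat {w : Fin (2 * g + 1) → ℤ} (c : Par F g w) : Mt g (𝓞 F) :=
  Matrix.of fun i j => if h : (i, j) ∈
    (Finset.univ : Finset (Fin (2 * g + 1) × Fin (2 * g + 1))).filter (fun p => p.1 < p.2) then
      (c ⟨(i, j), h⟩).1 else if i = j then 1 else 0

theorem mat_lt {w : Fin (2 * g + 1) → ℤ} (c : Par F g w) {i j : Fin (2 * g + 1)} (h : i < j) :
    mat c i j = (c ⟨(i, j), mem_ix h⟩).1 := by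
  unfold mat
  rw [Matrix.of_apply, dif_pos (mem_ix h)]

theorem mat_ge {w : Fin (2 * g + 1) → ℤ} (c : Par F g w) {i j : Fin (2 * g + 1)} (h : j ≤ i) :
    mat c i j = if i = j then 1 else 0 := by
  unfold mat
  rw [Matrix.of_apply, dif_neg]
  intro h'
  rw [Finset.mem_filter] at h'
  exact absurd h'.2 (not_lt.mpr h)

theorem mat_uni {w : Fin (2 * g + 1) → ℤ} (c : Par F g w) : Uni w (mat c) where
  low := fun i j hij => by rw [mat_ge c hij.le, if_neg hij.ne']
  dia := fun i => by rw [mat_ge c le_rfl, if_pos rfl]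
  bd := fun i j hij => by
    rw [mat_lt c hij]
    exact (c ⟨(i, j), mem_ix hij⟩).2

theorem mat_inj {w : Fin (2 * g + 1) → ℤ} {c c' : Par F g w} (h : mat c = mat c') : c = c' := by
  funext p
  obtain ⟨⟨i, j⟩, hp⟩ := p
  have hij : i < j := (Finset.mem_filter.mp hp).2
  have h1 : mat c i j = mat c' i j := by rw [h]
  rw [mat_lt c hij, mat_lt c' hij] at h1
  exact Subtype.ext h1

theorem card_par {C : ℕ} (hC : ∀ R : ℝ, 1 ≤ R →
      R ^ Module.finrank ℚ F ≤ C * ({a : 𝓞 F | Bd (a : F) R}.ncard : ℝ))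
    {w : Fin (2 * g + 1) → ℤ} (hw : Typ g w) :
    2 ^ (Module.finrank ℚ F * eU g w) ≤ C ^ Fintype.card (Ix g) * Nat.card (Par F g w) := by
  have h1 : 2 ^ (Module.finrank ℚ F * eU g w) =
      ∏ p : Ix g, (2 ^ (w p.1.2 - w p.1.1).toNat) ^ Module.finrank ℚ F := by
    rw [Finset.prod_pow, Finset.prod_pow_eq_pow_sum, ← pow_mul, mul_comm]
    congr 2
    unfold eU
    exact (Finset.sum_coe_sort ((Finset.univ : Finset (Fin (2 * g + 1) × Fin (2 * g + 1))).filter
      (fun p => p.1 < p.2)) (fun p => (w p.2 - w p.1).toNat)).symm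
  have h2 : C ^ Fintype.card (Ix g) * Nat.card (Par F g w) =
      ∏ p : Ix g, (C * Nat.card {a : 𝓞 F | Bd (a : F) ((2 : ℝ) ^ (w p.1.2 - w p.1.1))}) := by
    rw [Nat.card_pi, Finset.prod_mul_distrib, Finset.prod_const, Finset.card_univ]
  rw [h1, h2]
  refine Finset.prod_le_prod (fun _ _ => Nat.zero_le _) fun p _ => ?_
  have hp : (0 : ℤ) ≤ w p.1.2 - w p.1.1 :=
    sub_nonneg.mpr (hw.mono (Finset.mem_filter.mp p.2).2.le)
  have h3 := hC ((2 : ℝ) ^ (w p.1.2 - w p.1.1)) (one_le_zpow₀ (by norm_num) hp)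
  rw [Nat.card_coe_set_eq]
  have h4 : (2 : ℝ) ^ (w p.1.2 - w p.1.1) = (2 : ℝ) ^ (w p.1.2 - w p.1.1).toNat := by
    rw [← zpow_natCast, Int.toNat_of_nonneg hp]
  have h5 : (((2 ^ (w p.1.2 - w p.1.1).toNat) ^ Module.finrank ℚ F : ℕ) : ℝ) ≤
      ((C * {a : 𝓞 F | Bd (a : F) ((2 : ℝ) ^ (w p.1.2 - w p.1.1))}.ncard : ℕ) : ℝ) := by
    push_cast
    rw [← h4]
    exact h3
  exact_mod_cast h5

theorem X_act {κ : ℕ} (hκ : (2 * g + 1) ^ 2 ≤ 2 ^ κ) {c : ℕ} {S : Finset ℕ}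
    {𝔮 : ℕ → Ideal (𝓞 F)} {P : ℕ → (𝓞 F)[X]} {N : ℕ}
    {w : Fin (2 * g + 1) → ℤ} {A B U : Mt g (𝓞 F)} (hX : Xset g N c w S 𝔮 P A B) (hU : Uni w U) :
    Xset g (N + κ) (c + κ) w S 𝔮 P (Uᵀ * A * U) (Uᵀ * B * U) where
  box := {
    sA := symm_act hX.box.sA
    sB := symm_act hX.box.sB
    det := by
      obtain ⟨x, h1, h2, h3⟩ := hX.box.det
      refine ⟨x, h1, ?_, h3.trans (Nat.pow_le_pow_right (by norm_num) (Nat.le_add_right _ _))⟩
      rw [Matrix.det_mul, Matrix.det_mul, Matrix.det_transpose, hU.det, one_mul, mul_one]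
      exact h2
    tr := by rw [tr_act hU.det]; exact hX.box.tr
    bA := fun i j => by
      refine bd_mono (hU.box hX.box.bA i j) ?_
      have h1 : (((2 * g + 1 : ℕ) : ℝ)) ^ 2 ≤ (2 : ℝ) ^ (κ : ℤ) := by
        rw [zpow_natCast]
        exact_mod_cast hκ
      have h2 : (2 : ℝ) ^ (((c + κ : ℕ) : ℤ) + w i + w j) =
          (2 : ℝ) ^ (κ : ℤ) * (2 : ℝ) ^ ((c : ℤ) + w i + w j) := by
        rw [← zpow_add₀ (by norm_num : (2 : ℝ) ≠ 0)]
        congr 1
        push_cast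
        ring
      rw [h2]
      exact mul_le_mul_of_nonneg_right h1 (by positivity)
    bB := fun i j => by
      refine bd_mono (hU.box hX.box.bB i j) ?_
      have h1 : (((2 * g + 1 : ℕ) : ℝ)) ^ 2 ≤ (2 : ℝ) ^ (2 * (κ : ℤ)) := by
        have h3 : (((2 * g + 1 : ℕ) : ℝ)) ^ 2 ≤ (2 : ℝ) ^ (κ : ℤ) := by
          rw [zpow_natCast]
          exact_mod_cast hκ
        refine h3.trans (zpow_le_zpow_right₀ (by norm_num) ?_)
        omega
      have h2 : (2 : ℝ) ^ (2 * ((N + κ : ℕ) : ℤ) + w i + w j) =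
          (2 : ℝ) ^ (2 * (κ : ℤ)) * (2 : ℝ) ^ (2 * (N : ℤ) + w i + w j) := by
        rw [← zpow_add₀ (by norm_num : (2 : ℝ) ≠ 0)]
        congr 1
        push_cast
        ring
      rw [h2]
      exact mul_le_mul_of_nonneg_right h1 (by positivity) }
  con := fun q hq 𝔭 h1 h2 => by
    have h3 := hX.con q hq 𝔭 h1 h2
    rw [← h3, rm, rm, map_act, map_act, chp_act (map_unit _ hU.det)]
  dist := fun q hq => by
    rw [rm, rm, map_act, map_act]
    exact dist_act (map_unit _ hU.det) (hX.dist q hq)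

end count

/-- PF/ORB -/
theorem orb (hP : S_PTS) : Pool.Agent.N783.PF.S_ORB := by
  intro F _ _ g
  obtain ⟨-, C0, hC0, hC, -⟩ := hP F
  refine ⟨2 * (2 * g + 1), ⌈C0⌉₊ ^ Fintype.card (Ix g), ?_⟩
  intro c S 𝔮 P N w hw hfin
  have hcard := card_par (F := F) (C := ⌈C0⌉₊) (fun R hR => (hC R hR).2.trans
    (mul_le_mul_of_nonneg_right (Nat.le_ceil C0) (Nat.cast_nonneg _))) hw
  have hκ : (2 * g + 1) ^ 2 ≤ 2 ^ (2 * (2 * g + 1)) := by
    rw [mul_comm 2 (2 * g + 1), pow_mul]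
    exact Nat.pow_le_pow_left (Nat.lt_two_pow_self).le 2
  obtain ⟨κ, hκe⟩ : ∃ κ, κ = 2 * (2 * g + 1) := ⟨_, rfl⟩
  rw [← hκe] at hκ hfin ⊢
  have hfin' : Finite {p : Mt g (𝓞 F) × Mt g (𝓞 F) |
    Xset g (N + κ) (c + κ) w S 𝔮 P p.1 p.2} := hfin.to_subtype
  refine (Nat.mul_le_mul_left _ hcard).trans ?_
  rw [Nat.mul_left_comm]
  refine Nat.mul_le_mul_left _ ?_
  rw [← Nat.card_coe_set_eq, ← Nat.card_prod, ← Nat.card_coe_set_eq]
  have hch : ∀ f : {f : (𝓞 F)[X] | Irreducible (fF f) ∧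
      ∃ A B : Mt g (𝓞 F), Xset g N c w S 𝔮 P A B ∧ chp (mF A) (mF B) = fF f},
      ∃ A B : Mt g (𝓞 F), Xset g N c w S 𝔮 P A B ∧ chp (mF A) (mF B) = fF f.1 := fun f => f.2.2
  choose A B hB1 hB2 using hch
  refine Nat.card_le_card_of_injective
    (fun z => (⟨((mat z.2)ᵀ * A z.1 * mat z.2, (mat z.2)ᵀ * B z.1 * mat z.2),
      X_act hκ (hB1 z.1) (mat_uni z.2)⟩ :
      {p : Mt g (𝓞 F) × Mt g (𝓞 F) | Xset g (N + κ) (c + κ) w S 𝔮 P p.1 p.2})) ?_
  rintro ⟨f, u⟩ ⟨f', u'⟩ he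
  have h0 : ((mat u)ᵀ * A f * mat u, (mat u)ᵀ * B f * mat u) =
      ((mat u')ᵀ * A f' * mat u', (mat u')ᵀ * B f' * mat u') := congrArg Subtype.val he
  have h4 : (mat u)ᵀ * A f * mat u = (mat u')ᵀ * A f' * mat u' := congrArg Prod.fst h0
  have h5 : (mat u)ᵀ * B f * mat u = (mat u')ᵀ * B f' * mat u' := congrArg Prod.snd h0
  have h6 : f = f' := by
    apply Subtype.ext
    apply Polynomial.map_injective (algebraMap (𝓞 F) F) RingOfIntegers.coe_injective
    have e1 := hB2 f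
    have e2 := hB2 f'
    rw [← chp_act (A := mF (A f)) (B := mF (B f)) (map_unit (algebraMap (𝓞 F) F) (mat_uni u).det),
      ← map_act, ← map_act, h4, h5, map_act, map_act,
      chp_act (map_unit (algebraMap (𝓞 F) F) (mat_uni u').det), e2] at e1
    exact e1.symm
  subst h6
  have h7 := free (A := A f) (B := B f) (by rw [hB2 f]; exact f.2.1) (mat_uni u)
    (mat_uni u') h4 h5
  rw [mat_inj h7]

end Pool.Agent.N999.PF
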